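import Pool.Agent.Work.MP_f6f9f1_co.Abstract

set_option autoImplicit false

namespace Pool.Agent.Results.MP_f6f9f1_co.NoPureMorphic

/-- For a nonempty word `t`: the number of occurrences of `t` as a factor of `u`, counted as the
number of suffixes of `u` that begin with `t`. -/
def occ (t u : List Bool) : ℕ := (u.tails.filter (fun s => t.isPrefixOf s)).length

/-- `k`-abelian equivalence of binary words. -/
def KAbelianEq (k : ℕ) (u v : List Bool) : Prop :=
  ∀ t : List Bool, 1 ≤ t.length → t.length ≤ k → occ t u = occ t v

/-- `k`-abelian cubes (3-powers). -/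
def IsKAbelianCube (k : ℕ) (u : List Bool) : Prop :=
  ∃ u1 u2 u3 : List Bool, u1 ≠ [] ∧ u2 ≠ [] ∧ u3 ≠ [] ∧ u = u1 ++ u2 ++ u3 ∧
    KAbelianEq k u1 u2 ∧ KAbelianEq k u2 u3

/-- The finite word `u` is a prefix of the infinite word `x`. -/
def IsPrefix (u : List Bool) (x : ℕ → Bool) : Prop := ∀ j (hj : j < u.length), u[j] = x j

/-- The finite word `u` is a factor of the infinite word `x`. -/
def IsFactor (u : List Bool) (x : ℕ → Bool) : Prop :=
  ∃ i, ∀ j (hj : j < u.length), u[j] = x (i + j)

/-- The morphism of the free monoid `{0,1}*` whose images of letters are given by `h`. -/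
def morph (h : Bool → List Bool) (u : List Bool) : List Bool := u.flatMap h

/-- `x` is a pure morphic binary word: `x = h^ω(a)` for a morphism `h` with `h(a) = a w` and
`h^m(w)` nonempty for all `m`. -/
def IsPureMorphic (x : ℕ → Bool) : Prop :=
  ∃ (h : Bool → List Bool) (a : Bool) (w : List Bool), h a = a :: w ∧
    (∀ m : ℕ, (morph h)^[m] w ≠ []) ∧ ∀ n : ℕ, IsPrefix ((morph h)^[n] [a]) x

open Pool.Agent.Work.MP_f6f9f1_co

lemma occ_one (c : Bool) (u : List Bool) : occ [c] u = u.count c := by
  induction u with
  | nil => simp [occ]
  | cons a t ih =>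
    unfold occ at ih ⊢
    rw [List.tails_cons, List.filter_cons, List.count_cons]
    by_cases h : a = c
    · subst h
      simp [ih]
    · have h' : ¬ c = a := fun e => h e.symm
      simp [ih, h, h']

lemma occ_two (c d : Bool) (u : List Bool) : occ [c, d] u = (prs u).count (c, d) := by
  induction u with
  | nil => simp [occ, prs]
  | cons a t ih =>
    cases t with
    | nil => simp [occ, prs]
    | cons b t' =>
      have e : occ [c, d] (a :: b :: t') =
          (if c = a ∧ d = b then 1 else 0) + occ [c, d] (b :: t') := by
        unfold occ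
        rw [List.tails_cons (a := a), List.filter_cons]
        by_cases h : c = a ∧ d = b
        · obtain ⟨rfl, rfl⟩ := h
          simp [add_comm]
        · have : ([c, d].isPrefixOf (a :: b :: t')) = false := by
            simp only [List.isPrefixOf, Bool.and_true, Bool.and_eq_false_iff, beq_eq_false_iff_ne]
            tauto
          simp [this, h]
      rw [e, ih, prs_cons_cons, List.count_cons]
      by_cases h : c = a ∧ d = b
      · obtain ⟨rfl, rfl⟩ := h
        simp [add_comm]
      · have h' : ¬ (a = c ∧ b = d) := fun e => h ⟨e.1.symm, e.2.symm⟩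
        simp [h, h']

lemma E2.kab {u v : List Bool} (h : E2 u v) : KAbelianEq 2 u v := by
  intro t h1 h2
  match t with
  | [] => simp at h1
  | [c] => rw [occ_one, occ_one]; exact h.1.count_eq c
  | [c, d] => rw [occ_two, occ_two]; exact h.2.count_eq (c, d)
  | _ :: _ :: _ :: _ => simp at h2

lemma hasCube_result {x : ℕ → Bool} (h : HasCube (fun u => IsFactor u x)) :
    ∃ u, IsFactor u x ∧ IsKAbelianCube 2 u := by
  obtain ⟨u1, u2, u3, n1, n2, n3, e1, e2, hf⟩ := h
  exact ⟨u1 ++ u2 ++ u3, hf, u1, u2, u3, n1, n2, n3, rfl, E2.kab e1, E2.kab e2⟩

lemma fac_of (x : ℕ → Bool) (a b c : List Bool) (h : IsFactor (a ++ b ++ c) x) :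
    IsFactor b x := by
  obtain ⟨i, hi⟩ := h
  refine ⟨i + a.length, fun j hj => ?_⟩
  have h1 : a.length + j < (a ++ b ++ c).length := by
    rw [List.length_append, List.length_append]; omega
  have h2 := hi (a.length + j) h1
  rw [add_assoc, ← h2, List.getElem_append_left (by rw [List.length_append]; omega),
    List.getElem_append_right (by omega)]
  congr 1
  omega

lemma growth_of {h : Bool → List Bool} {a : Bool} {w : List Bool} (h0 : h a = a :: w)
    (hw : ∀ m, it h m w ≠ []) (k : ℕ) : k + 1 ≤ (it h k [a]).length := by
  induction k with
  | zero => simp [it_zero]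
  | succ k ih =>
    have e : it h (k + 1) [a] = it h k [a] ++ it h k w := by
      rw [it_single_succ, h0, ← it_append]
      rfl
    have h1 := List.length_pos_iff.mpr (hw k)
    rw [e, List.length_append]
    omega

lemma lang_of {x : ℕ → Bool} {h : Bool → List Bool} {a : Bool}
    (growth : ∀ k, k + 1 ≤ (it h k [a]).length) (hx : ∀ n, IsPrefix (it h n [a]) x) :
    Lang (fun u => IsFactor u x) h := by
  refine ⟨fun a b c => fac_of x a b c, ?_, ?_⟩
  · rintro u ⟨i, hi⟩
    set n := i + u.length with hn
    set P := it h n [a] with hP
    have hlen : i + u.length ≤ P.length := by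
      have hg : n + 1 ≤ P.length := growth n
      omega
    have hPx : IsPrefix P x := hx n
    have hu : u = (P.drop i).take u.length := by
      apply List.ext_getElem
      · rw [List.length_take, List.length_drop]; omega
      · intro j hj1 hj2
        rw [List.getElem_take, List.getElem_drop, hPx (i + j) (by omega), hi j hj1]
    have hdec : P = P.take i ++ u ++ P.drop (i + u.length) := by
      conv_lhs => rw [← List.take_append_drop i P]
      rw [List.append_assoc]
      congr 1
      conv_lhs => rw [← List.take_append_drop u.length (P.drop i)]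
      rw [← hu, List.drop_drop]
    have h1 := hx (n + 1)
    rw [it_succ', ← hP, hdec, List.flatMap_append, List.flatMap_append] at h1
    exact fac_of x _ _ _ ⟨0, fun j hj => by rw [zero_add]; exact h1 j hj⟩
  · rintro u ⟨i, hi⟩
    refine ⟨x (i + u.length), i, fun j hj => ?_⟩
    by_cases h1 : j < u.length
    · rw [List.getElem_append_left h1]
      exact hi j h1
    · have h2 : j = u.length := by
        rw [List.length_append, List.length_singleton] at hj; omega
      subst h2
      simp

lemma main_false {x : ℕ → Bool} {h : Bool → List Bool} {w : List Bool}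
    (h0 : h false = false :: w) (hw : ∀ m, it h m w ≠ [])
    (hx : ∀ n, IsPrefix (it h n [false]) x) : HasCube (fun u => IsFactor u x) := by
  have growth := growth_of h0 hw
  refine abstract_main _ h (lang_of growth hx) w h0 growth ?_
  have := hx 0
  exact ⟨0, fun j hj => by rw [zero_add]; exact this j hj⟩

lemma it_not (h : Bool → List Bool) (k : ℕ) (u : List Bool) :
    it (fun c => (h (!c)).map not) k (u.map not) = (it h k u).map not := by
  induction k generalizing u with
  | zero => rfl
  | succ k ih =>
    rw [it_succ, it_succ, ← ih]
    congr 1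
    rw [List.flatMap_map, List.map_flatMap]
    refine List.flatMap_congr fun c _ => ?_
    simp

/-- **Every pure morphic binary word contains a 2-abelian cube.** -/
theorem result (x : ℕ → Bool) (hx : IsPureMorphic x) :
    ∃ u, IsFactor u x ∧ IsKAbelianCube 2 u := by
  obtain ⟨h, a, w, h0, hw, hp⟩ := hx
  cases a with
  | false => exact hasCube_result (main_false h0 hw hp)
  | true =>
    have hm := main_false (x := fun n => !(x n)) (h := fun c => (h (!c)).map not)
      (w := w.map not) (by simp [h0]) (fun m => by
        rw [it_not]
        intro hc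
        exact hw m (List.map_eq_nil_iff.mp hc)) (fun n => by
        have e : it (fun c => (h (!c)).map not) n [false] = (it h n [true]).map not := by
          rw [← it_not]; rfl
        rw [e]
        intro j hj
        rw [List.getElem_map]
        congr 1
        have hj2 : j < (it h n [true]).length := by simpa using hj
        exact hp n j hj2)
    obtain ⟨u1, u2, u3, n1, n2, n3, e1, e2, i, hi⟩ := hm
    refine hasCube_result ⟨u1.map not, u2.map not, u3.map not, by simpa using n1,
      by simpa using n2, by simpa using n3, e1.map not, e2.map not, i, fun j hj => ?_⟩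
    have hj' : j < (u1 ++ u2 ++ u3).length := by simpa using hj
    have h1 := hi j hj'
    have h2 : (u1.map not ++ u2.map not ++ u3.map not) = (u1 ++ u2 ++ u3).map not := by simp
    simp only [h2, List.getElem_map, h1, Bool.not_not]

end Pool.Agent.Results.MP_f6f9f1_co.NoPureMorphic
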